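import Mathlib
import Pool.Agent.Helper17.FUGroup
import Pool.Agent.Helper17.Herglotz
import Pool.Agent.Helper58.FH.G
import Pool.Agent.Helper58.FH.DioU
import Pool.Agent.Helper58.PW.Final

set_option autoImplicit false
open scoped ComplexOrder InnerProductSpace
open Filter MeasureTheory Helper17.FU Helper17.FUGroup Helper17.Herglotz

namespace Pool.Agent.Results.MP_81910f_an.FiniteHorizon

open Classical in
/-- the numbers `2 ^ i * 3 ^ l` with `l < M` between `2 ^ q` and `2 ^ (q + L)` -/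
noncomputable def strip (q M L : ℕ) : Finset ℕ :=
  (Finset.range (2 ^ (q + L))).filter (fun s => 2 ^ q ≤ s ∧ ∃ i l : ℕ, l < M ∧ s = 2 ^ i * 3 ^ l)

/-- the mean of the character `x ↦ e^{2 π i m x}` over the points `s x`, `s ∈ B` -/
noncomputable def mean (B : Finset ℕ) (m : ℤ) (x : AddCircle (1 : ℝ)) : ℂ :=
  (∑ s ∈ B, (fourier m (s • x) : ℂ)) / B.card

/-- the points `x` such that the mean of the Dirac measures at the points `s x`, `s ∈ B`, agrees, up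
to `1 / (n + 1)` on the characters of frequency at most `n`, with some probability measure which is
at least one half of Lebesgue measure -/
def Phase (n : ℕ) (B : Finset ℕ) : Set (AddCircle (1 : ℝ)) :=
  {x | ∃ ν : Measure (AddCircle (1 : ℝ)), (IsProbabilityMeasure ν ∧
    (volume : Measure (AddCircle (1 : ℝ))) ≤ (2 : ENNReal) • ν) ∧
    ∀ m : ℤ, |m| ≤ n → ‖mean B m x - ∫ y, (fourier m y : ℂ) ∂ν‖ < 1 / (n + 1)}

/-- **Finite horizon.** (I) For fixed large strips: of two points of the circle at distance about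
`2 ^ (- Q)` one is a phase (its strip average is at least half equidistributed); every point which is
not a torsion point of small order becomes a phase after multiplication by a power of two, with a
bound for the first time; the phases have positive mass in every set invariant under doubling, for
every measure invariant under doubling; for wide strips only finitely many points have no phases
from some scale on.
(II) For an extreme trace with spectral measure `μ`: (A) the conditional dimension is infinite if and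
only if there are phases of every quality, and then every set of positive measure invariant under
doubling contains phases.  (B) Equivalent conditions for an extreme trace to differ from the regular
one: the difference set of some set of measure more than one half is not everything; difference sets
and sumsets of large closed sets are badly approximable by 6-adic rationals and by the rationals with
denominators `2 ^ i * 3 ^ l * f` such that two or three has large order modulo `f`; the Fourier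
coefficients along sparse sums do not vanish. -/
theorem result : ∃ (L₀ : ℕ → ℕ) (M₀ : ℕ → ℕ → ℕ),
  (∀ n L M Q : ℕ, L₀ n ≤ L → M₀ n L ≤ M → 3 ^ M ≤ 2 ^ Q →
    (∀ x y : AddCircle (1 : ℝ), 1 / 2 ≤ 2 ^ Q * ‖x - y‖ → 2 ^ Q * ‖x - y‖ ≤ 1 →
      x ∈ Phase n (strip Q M L) ∨ y ∈ Phase n (strip Q M L)) ∧
    (∀ (x : AddCircle (1 : ℝ)) (H : ℕ),
      ((2 ^ 2 ^ Q).factorial * 2 ^ 2 ^ Q : ℝ) < 2 ^ H * ‖(2 ^ 2 ^ Q).factorial • x‖ →
        ∃ j, j ≤ H ∧ 2 ^ j • x ∈ Phase n (strip Q M L)) ∧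
    (∀ x : ℝ, Irrational x →
      ∃ᶠ j : ℕ in atTop, 2 ^ j • (x : AddCircle (1 : ℝ)) ∈ Phase n (strip Q M L)) ∧
    ∀ η : Measure (AddCircle (1 : ℝ)), IsProbabilityMeasure η →
      MeasurePreserving (fun x : AddCircle (1 : ℝ) => (2 : ℕ) • x) η η →
      ∀ S : Set (AddCircle (1 : ℝ)), MeasurableSet S → (∀ x ∈ S, (2 : ℕ) • x ∈ S) →
        1 / 2 ^ 2 ^ (Q + 3) *
            ∫ x in S, (1 - (fourier (((2 ^ 2 ^ Q).factorial : ℕ) : ℤ) x : ℂ).re) ∂η ≤
          η.real (S ∩ Phase n (strip Q M L))) ∧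
  (∀ n L : ℕ, L₀ n ≤ L → ∀ M : ℕ → ℕ, Tendsto M atTop atTop → ∀ Q : ℕ,
    {x : AddCircle (1 : ℝ) | ∀ q, Q ≤ q → x ∉ Phase n (strip q (M q) L)}.Finite) ∧
  ∀ (s2 s3 t : Equiv.Perm ℚ), (∀ x : ℚ, s2 x = 2 * x) → (∀ x : ℚ, s3 x = 3 * x) →
  (∀ x : ℚ, t x = x + 1) →
  ∀ (G : Subgroup (Equiv.Perm ℚ)), G = Subgroup.closure {s2, s3, t} →
  ∀ τ : G, (τ : Equiv.Perm ℚ) = t →
  ∀ φ : G → ℂ,
    φ ∈ Set.extremePoints ℝ {ψ : G → ℂ | ψ 1 = 1 ∧ (∀ g h : G, ψ (h * g * h⁻¹) = ψ g) ∧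
        ∀ (s : Finset G) (c : G → ℂ), 0 ≤ ∑ i ∈ s, ∑ j ∈ s, star (c j) * c i * ψ (j⁻¹ * i)} →
    ∃ μ : Measure (AddCircle (1 : ℝ)), IsProbabilityMeasure μ ∧
      (∀ m : ℤ, ∫ x, (fourier m x : ℂ) ∂μ = φ (τ ^ m)) ∧
      ((¬ FiniteDimensional ℂ (Submodule.span ℂ {F : G → ℂ | ∃ n : G,
            (∃ r : ℚ, ∀ x : ℚ, (n : Equiv.Perm ℚ) x = x + r) ∧ F = fun x => φ (n * x)})) ↔
        ∀ n : ℕ, ∃ B : Finset ℕ, 0 < μ (Phase n B)) ∧
      ((¬ FiniteDimensional ℂ (Submodule.span ℂ {F : G → ℂ | ∃ n : G,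
            (∃ r : ℚ, ∀ x : ℚ, (n : Equiv.Perm ℚ) x = x + r) ∧ F = fun x => φ (n * x)})) →
        ∀ n L M Q : ℕ, L₀ n ≤ L → M₀ n L ≤ M → 3 ^ M ≤ 2 ^ Q →
          ∀ S : Set (AddCircle (1 : ℝ)), MeasurableSet S → (∀ x ∈ S, (2 : ℕ) • x ∈ S) → 0 < μ S →
            0 < μ (S ∩ Phase n (strip Q M L))) ∧
      [φ ≠ Set.indicator ({1} : Set G) (fun _ => (1 : ℂ)),
        ∃ K : Set (AddCircle (1 : ℝ)), IsClosed K ∧ 1 / 2 < μ.real K ∧
          ∃ a : AddCircle (1 : ℝ), ∀ x ∈ K, ∀ y ∈ K, x - y ≠ a,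
        ∀ ε : ℝ, 0 < ε → ∃ K : Set (AddCircle (1 : ℝ)), IsClosed K ∧ 1 - ε ≤ μ.real K ∧
          (∀ θ : ℝ, 2 / 3 < θ → ∃ c : ℝ, 0 < c ∧ ∀ x ∈ K, ∀ y ∈ K, ∀ (i l : ℕ) (w : ℤ),
            ¬ ((2 ^ i * 3 ^ l : ℕ) : ℤ) ∣ w →
              c * Real.exp (-Real.exp ((Real.log (2 ^ i * 3 ^ l : ℕ)) ^ θ)) <
                ‖x - y - ((w / (2 ^ i * 3 ^ l) : ℝ) : AddCircle (1 : ℝ))‖) ∧
          (∀ (k : ℕ) (θ : ℝ), 2 / 3 < θ → ∃ S : ℕ, ∀ x : Fin k → AddCircle (1 : ℝ),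
            (∀ j, x j ∈ K) → ∀ c : Fin k → ℤ, (∀ j, |c j| ≤ 1) → ∀ (i l : ℕ) (w : ℤ),
              S ≤ 2 ^ i * 3 ^ l → IsCoprime ((2 ^ i * 3 ^ l : ℕ) : ℤ) w →
                Real.exp (-Real.exp ((Real.log (2 ^ i * 3 ^ l : ℕ)) ^ θ)) <
                  ‖∑ j, c j • x j - ((w / (2 ^ i * 3 ^ l) : ℝ) : AddCircle (1 : ℝ))‖) ∧
          (∀ κ : ℝ, 0 < κ → ∃ q0 : ℕ, ∀ η : ℝ, 0 < η → ∃ c : ℝ, 0 < c ∧ ∀ x ∈ K, ∀ y ∈ K,
            ∀ (i l f : ℕ) (w : ℤ), Nat.Coprime f 6 →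
              ((f : ℝ) ^ κ ≤ orderOf (2 : ZMod f) ∨ (f : ℝ) ^ κ ≤ orderOf (3 : ZMod f)) →
              (q0 < 2 ^ i * 3 ^ l * f ∨ ¬ Nat.Coprime (2 ^ i * 3 ^ l * f) 6) →
              IsCoprime ((2 ^ i * 3 ^ l * f : ℕ) : ℤ) w →
                c * Real.exp (-((2 ^ i * 3 ^ l * f : ℕ) : ℝ) ^ η) <
                  ‖x - y - ((w / (2 ^ i * 3 ^ l * f : ℕ) : ℝ) : AddCircle (1 : ℝ))‖) ∧
          ∀ (k : ℕ) (κ η : ℝ), 0 < κ → 0 < η → ∃ S : ℕ, ∀ x : Fin k → AddCircle (1 : ℝ),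
            (∀ j, x j ∈ K) → ∀ c : Fin k → ℤ, (∀ j, |c j| ≤ 1) →
              ∀ (i l f : ℕ) (w : ℤ), S ≤ 2 ^ i * 3 ^ l * f → Nat.Coprime f 6 →
                ((f : ℝ) ^ κ ≤ orderOf (2 : ZMod f) ∨ (f : ℝ) ^ κ ≤ orderOf (3 : ZMod f)) →
                IsCoprime ((2 ^ i * 3 ^ l * f : ℕ) : ℤ) w →
                  Real.exp (-((2 ^ i * 3 ^ l * f : ℕ) : ℝ) ^ η) <
                    ‖∑ j, c j • x j - ((w / (2 ^ i * 3 ^ l * f : ℕ) : ℝ) : AddCircle (1 : ℝ))‖,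
        ∀ k : ℕ, ∃ (m0 : ℕ) (δ : ℝ), 0 < δ ∧
          ∀ (a b : Fin k → ℕ) (c : Fin k → ℤ), (∀ i, |c i| ≤ 1) →
            ∃ m : ℕ, 1 ≤ m ∧ m ≤ m0 ∧ δ ≤ ‖φ (τ ^ ((m : ℤ) * ∑ i, c i * (2 ^ a i * 3 ^ b i)))‖].TFAE := by
  obtain ⟨L₀, M₀, hI, hW⟩ := Helper58.PW.thresholds
  refine ⟨L₀, M₀, hI, hW, ?_⟩
  intro s2 s3 t h2 h3 ht G hG τ hτ φ hφ
  subst hG
  have hφ' : φ ∈ Set.extremePoints ℝ
      (TR (Subgroup.closure {s2, s3, t} : Subgroup (Equiv.Perm ℚ))) := hφ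
  have hφT := hφ'.1
  have hφ1 : φ 1 = 1 := hφT.1
  have hφc := hφT.2.1
  have hFφ : Fact (PD φ) := ⟨hφT.2.2⟩
  obtain ⟨σ2, σ3, τ', hσ2, hσ3, hτ', e2, e3, ecomm, hgen⟩ := relations h2 h3 ht
  have hττ' : τ' = τ := Subtype.ext (by rw [hτ', hτ])
  rw [hττ'] at e2 e3 hgen
  -- the spectral measure
  have hpdz : ∀ (s : Finset ℤ) (c : ℤ → ℂ),
      0 ≤ ∑ i ∈ s, ∑ j ∈ s, star (c j) * c i * φ (τ ^ (i - j)) := by
    intro s c
    have h := (pd_comp hFφ.out (zpowersHom _ τ)) (s.map ⟨Multiplicative.ofAdd,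
      Multiplicative.ofAdd.injective⟩) (fun n => c (Multiplicative.toAdd n))
    rw [Finset.sum_map] at h
    simp only [Finset.sum_map, Function.Embedding.coeFn_mk, toAdd_ofAdd] at h
    refine le_of_le_of_eq h (Finset.sum_congr rfl fun i _ => Finset.sum_congr rfl fun j _ => ?_)
    congr 2
    simp only [zpowersHom_apply, toAdd_mul, toAdd_inv, toAdd_ofAdd]
    congr 1
    ring
  obtain ⟨μ, hμp, hμ⟩ := herglotz (f := fun n : ℤ => φ (τ ^ n)) hpdz (by simp [hφ1])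
  refine ⟨μ, hμp, hμ, ?_⟩
  -- invariance
  have hinv : ∀ N : ℕ, (∀ j : ℤ, φ (τ ^ ((N : ℤ) * j)) = φ (τ ^ j)) →
      MeasurePreserving (Helper17.TranslM.T N) μ μ := by
    intro N hN
    refine ⟨Helper17.TranslM.measurable_T N, ?_⟩
    have hp : IsProbabilityMeasure (μ.map (Helper17.TranslM.T N)) :=
      Measure.isProbabilityMeasure_map (Helper17.TranslM.measurable_T N).aemeasurable
    apply Helper17.TranslM.eq_of_fourier
    intro m
    rw [integral_map (Helper17.TranslM.measurable_T N).aemeasurable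
      (fourier m).continuous.aestronglyMeasurable, hμ m, ← hN m, ← hμ]
    refine integral_congr_ae (Eventually.of_forall fun x => ?_)
    simp only [Helper17.TranslM.T, fourier_apply]
    congr 1
    congr 1
    rw [← natCast_zsmul, smul_smul, mul_comm]
  have hP : MeasurePreserving (Helper17.TranslM.T 2) μ μ := by
    refine hinv 2 fun j => ?_
    rw [show (((2 : ℕ) : ℤ) * j) = 2 * j by norm_num, ← conj_pow e2, hφc]
  have hQ : MeasurePreserving (Helper17.TranslM.T 3) μ μ := by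
    refine hinv 3 fun j => ?_
    rw [show (((3 : ℕ) : ℤ) * j) = 3 * j by norm_num, ← conj_pow3 e3, hφc]
  -- ergodicity
  have hft : ∀ m : ℤ, Helper58.FX.ft μ m = φ (τ ^ m) := hμ
  have hE : Helper58.FX.Erg (Helper58.FX.ft μ) := by
    intro m
    have h4 := ergodic_part hφ' σ2 σ3 τ e2 e3 ecomm hgen m
    have e : rf φ τ m 1 = φ (τ ^ m) := by rw [rf, mul_one]
    rw [e] at h4
    simp only [hft]
    exact h4
  have hne : φ ≠ Set.indicator ({1} : Set (Subgroup.closure {s2, s3, t} :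
      Subgroup (Equiv.Perm ℚ))) (fun _ => (1 : ℂ)) →
      ∃ n : ℤ, n ≠ 0 ∧ Helper58.FX.ft μ n ≠ 0 := by
    intro hΔ
    by_contra hcon
    push Not at hcon
    apply hΔ
    refine eq_indicator h2 h3 ht φ hφT τ hτ ?_
    intro m hm
    rw [← hμ m]
    exact hcon m hm
  -- the regular trace
  have hvol : φ = Set.indicator ({1} : Set (Subgroup.closure {s2, s3, t} :
      Subgroup (Equiv.Perm ℚ))) (fun _ => (1 : ℂ)) → μ = volume := by
    intro hΔ
    apply Helper17.TranslM.eq_of_fourier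
    intro m
    rw [hμ m]
    by_cases hm : m = 0
    · subst hm
      simp [hφ1]
    · rw [Helper17.TranslM.integral_fourier_vol hm, hΔ, Set.indicator_of_notMem]
      rw [Set.mem_singleton_iff]
      intro h4
      have h5 : ((τ ^ m : (Subgroup.closure {s2, s3, t} : Subgroup (Equiv.Perm ℚ))) :
          Equiv.Perm ℚ) 0 = 0 := by
        rw [h4]; rfl
      rw [Subgroup.coe_zpow, hτ, t_zpow ht] at h5
      apply hm
      have : (m : ℚ) = 0 := by linarith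
      exact_mod_cast this
  refine ⟨Helper58.PW.dim_iff h2 h3 ht hτ hφ' hμ hP, ?_, ?_⟩
  · intro hfd n L M Q hL hM hMQ S hS hS2 h0
    have hna := Pool.Agent.Helper40.LPA.no_atoms_of_infinite h2 h3 ht hτ hφ' hμ hfd
    exact Helper58.PW.charged hna (Nat.factorial_pos _) (by positivity) hS
      ((hI n L M Q hL hM hMQ).2.2.2 μ hμp hP S hS hS2) h0
  tfae_have 1 → 3 := fun h ε hε => Helper58.FH.dioU hP hQ hE (hne h) ε hε
  tfae_have 3 → 2 := by
    intro h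
    obtain ⟨K, hKc, hKm, h1, -⟩ := h (1 / 4) (by norm_num)
    obtain ⟨c, hc, h1⟩ := h1 1 (by norm_num)
    refine ⟨K, hKc, by linarith, ((1 / 2 : ℝ) : AddCircle (1 : ℝ)), fun x hx y hy hxy => ?_⟩
    have h2 := h1 x hx y hy 1 0 1 (by norm_num)
    have e : ((((1 : ℤ) : ℝ) / (2 ^ 1 * 3 ^ 0) : ℝ) : AddCircle (1 : ℝ)) =
        ((1 / 2 : ℝ) : AddCircle (1 : ℝ)) := by norm_num
    rw [hxy, e, sub_self, norm_zero] at h2
    exact absurd h2 (not_lt.2 (mul_pos hc (Real.exp_pos _)).le)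
  tfae_have 2 → 1 := by
    rintro ⟨K, hKc, hKm, a, ha⟩ hΔ
    rw [hvol hΔ] at hKm
    obtain ⟨x, hx, y, hy, hxy⟩ := Helper58.FH.leb_diff K hKc hKm a
    exact ha x hx y hy hxy
  tfae_have 1 → 4 := fun h k => by
    obtain ⟨m0, δ, hδ, h4⟩ := Helper58.FH.sparse hP hQ hE (hne h) k 1
    refine ⟨m0, δ, hδ, fun a b c hc => ?_⟩
    obtain ⟨m, hm1, hm2, hm⟩ := h4 a b c (by simpa using hc)
    refine ⟨m, hm1, hm2, ?_⟩
    rwa [hμ] at hm
  tfae_have 4 → 1 := by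
    intro h hΔ
    obtain ⟨m0, δ, hδ, h4⟩ := h 1
    obtain ⟨m, hm1, _, hm⟩ := h4 (fun _ => 0) (fun _ => 0) (fun _ => 1) (fun _ => by simp)
    rw [← hμ, hvol hΔ, Helper17.TranslM.integral_fourier_vol (by simp; omega), norm_zero] at hm
    linarith
  tfae_finish

end Pool.Agent.Results.MP_81910f_an.FiniteHorizon
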