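import Mathlib
import Pool.Agent.Helper17.FUGroup
import Pool.Agent.Helper17.FUTranslate
import Pool.Agent.Helper17.Herglotz

set_option autoImplicit false
open scoped ComplexOrder InnerProductSpace
open Filter MeasureTheory Helper17.FU Helper17.FUGroup Helper17.Herglotz

namespace Pool.Agent.Results.MP_81910f_an.SingularRotations

/-- **Rotations of the measure of an extreme trace.** The spectral measure of an extreme trace
different from the regular one has irrational rotations singular to every measure invariant under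
multiplication by some integer at least two. -/
theorem result :
  ∀ (s2 s3 t : Equiv.Perm ℚ), (∀ x : ℚ, s2 x = 2 * x) → (∀ x : ℚ, s3 x = 3 * x) →
  (∀ x : ℚ, t x = x + 1) →
  ∀ (G : Subgroup (Equiv.Perm ℚ)), G = Subgroup.closure {s2, s3, t} →
  ∀ τ : G, (τ : Equiv.Perm ℚ) = t →
  ∀ φ : G → ℂ,
    φ ∈ Set.extremePoints ℝ {ψ : G → ℂ | ψ 1 = 1 ∧ (∀ g h : G, ψ (h * g * h⁻¹) = ψ g) ∧
        ∀ (s : Finset G) (c : G → ℂ), 0 ≤ ∑ i ∈ s, ∑ j ∈ s, star (c j) * c i * ψ (j⁻¹ * i)} →
    φ = Set.indicator ({1} : Set G) (fun _ => (1 : ℂ)) ∨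
    ∃ μ : Measure (AddCircle (1 : ℝ)), IsProbabilityMeasure μ ∧
      (∀ m : ℤ, ∫ x, (fourier m x : ℂ) ∂μ = φ (τ ^ m)) ∧
      ∀ n : ℕ, 2 ≤ n →
        (∀ β : AddCircle (1 : ℝ), (∀ k : ℕ, 0 < k → k • β ≠ 0) →
          ∀ ν : Measure (AddCircle (1 : ℝ)), IsProbabilityMeasure ν →
            MeasurePreserving (fun x => n • x) ν ν →
            μ.map (fun x => x + β) ⟂ₘ ν) ∧
        ∀ ε : ℝ, 0 < ε → Set.Finite {β : AddCircle (1 : ℝ) |
          ∃ ν : Measure (AddCircle (1 : ℝ)), IsProbabilityMeasure ν ∧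
            MeasurePreserving (fun x => n • x) ν ν ∧
            ∀ B : Set (AddCircle (1 : ℝ)), MeasurableSet B →
              ε ≤ (μ.map (fun x => x + β)).real B + ν.real Bᶜ} := by
  intro s2 s3 t h2 h3 ht G hG τ hτ φ hφ
  subst hG
  have hφ' : φ ∈ Set.extremePoints ℝ
      (TR (Subgroup.closure {s2, s3, t} : Subgroup (Equiv.Perm ℚ))) := hφ
  have hφT := hφ'.1
  have hφ1 : φ 1 = 1 := hφT.1
  have hφc := hφT.2.1
  have hFφ : Fact (PD φ) := ⟨hφT.2.2⟩
  obtain ⟨σ2, σ3, τ', hσ2, hσ3, hτ', e2, e3, ecomm, hgen⟩ := relations h2 h3 ht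
  have hττ' : τ' = τ := Subtype.ext (by rw [hτ', hτ])
  rw [hττ'] at e2 e3 hgen
  by_cases hΔ : φ = Set.indicator ({1} : Set (Subgroup.closure {s2, s3, t} :
      Subgroup (Equiv.Perm ℚ))) (fun _ => (1 : ℂ))
  · left; exact hΔ
  right
  -- the spectral measure
  have hpdz : ∀ (s : Finset ℤ) (c : ℤ → ℂ),
      0 ≤ ∑ i ∈ s, ∑ j ∈ s, star (c j) * c i * φ (τ ^ (i - j)) := by
    intro s c
    have h := (pd_comp hFφ.out (zpowersHom _ τ)) (s.map ⟨Multiplicative.ofAdd,
      Multiplicative.ofAdd.injective⟩) (fun n => c (Multiplicative.toAdd n))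
    rw [Finset.sum_map] at h
    simp only [Finset.sum_map, Function.Embedding.coeFn_mk, toAdd_ofAdd] at h
    refine le_of_le_of_eq h (Finset.sum_congr rfl fun i _ => Finset.sum_congr rfl fun j _ => ?_)
    congr 2
    simp only [zpowersHom_apply, toAdd_mul, toAdd_inv, toAdd_ofAdd]
    congr 1
    ring
  obtain ⟨μ, hμp, hμ⟩ := herglotz (f := fun n : ℤ => φ (τ ^ n)) hpdz (by simp [hφ1])
  refine ⟨μ, hμp, hμ, ?_⟩
  -- invariance
  have hinv : ∀ N : ℕ, (∀ j : ℤ, φ (τ ^ ((N : ℤ) * j)) = φ (τ ^ j)) →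
      MeasurePreserving (Helper17.TranslM.T N) μ μ := by
    intro N hN
    refine ⟨Helper17.TranslM.measurable_T N, ?_⟩
    have hp : IsProbabilityMeasure (μ.map (Helper17.TranslM.T N)) :=
      Measure.isProbabilityMeasure_map (Helper17.TranslM.measurable_T N).aemeasurable
    apply Helper17.TranslM.eq_of_fourier
    intro m
    rw [integral_map (Helper17.TranslM.measurable_T N).aemeasurable
      (fourier m).continuous.aestronglyMeasurable, hμ m, ← hN m, ← hμ]
    refine integral_congr_ae (Eventually.of_forall fun x => ?_)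
    simp only [Helper17.TranslM.T, fourier_apply]
    congr 1
    congr 1
    rw [← natCast_zsmul, smul_smul, mul_comm]
  have hP : MeasurePreserving (Helper17.TranslM.T 2) μ μ := by
    refine hinv 2 fun j => ?_
    rw [show (((2 : ℕ) : ℤ) * j) = 2 * j by norm_num, ← conj_pow e2, hφc]
  have hQ : MeasurePreserving (Helper17.TranslM.T 3) μ μ := by
    refine hinv 3 fun j => ?_
    rw [show (((3 : ℕ) : ℤ) * j) = 3 * j by norm_num, ← conj_pow3 e3, hφc]
  -- singularity
  have hs : μ ⟂ₘ (volume : Measure (AddCircle (1 : ℝ))) := by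
    refine singular_of_ergodic hP hQ (fun m => ?_) ?_
    · have := ergodic_part hφ' σ2 σ3 τ e2 e3 ecomm hgen m
      simp only [hμ]
      have e : rf φ τ m 1 = φ (τ ^ m) := by rw [rf, mul_one]
      rw [e] at this
      exact this
    · by_contra hcon
      push Not at hcon
      apply hΔ
      refine eq_indicator h2 h3 ht φ hφT τ hτ ?_
      intro m hm
      rw [← hμ m]
      exact hcon m hm
  have hMI : Helper17.FurstPQ.MI 2 3 := by
    refine ⟨le_rfl, by norm_num, ?_⟩
    exact_mod_cast Helper17.Furst.log_irr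
  intro n hn
  exact Helper17.TranslM.main hMI hs hP hQ hn

end Pool.Agent.Results.MP_81910f_an.SingularRotations
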